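import Mathlib
import Pool.Agent.Y279.EX5

set_option autoImplicit false

namespace Pool.Agent.Results.MP_b3b95b_an.BoundedExtensions

/-- Every strictly bounded minimal sequence of a separable Banach space has bounded extensions of its
associated functionals whose common kernel together with the closed span of the sequence has dense
sum. Here `X` is the closed linear span of the sequence and `φ n` are the associated functionals. -/
theorem result (𝕜 : Type) [RCLike 𝕜] (E : Type) [NormedAddCommGroup E] [NormedSpace 𝕜 E]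
    [CompleteSpace E] [TopologicalSpace.SeparableSpace E] (x : ℕ → E) (X : Submodule 𝕜 E)
    (hX : X = (Submodule.span 𝕜 (Set.range x)).topologicalClosure)
    (φ : ℕ → (X →L[𝕜] 𝕜))
    (hφ : ∀ (i j : ℕ) (u : X), (u : E) = x j → φ i u = if i = j then 1 else 0)
    (hx : ∃ C : ℝ, ∀ n, ‖x n‖ ≤ C) (hφb : ∃ D : ℝ, ∀ n, ‖φ n‖ ≤ D) :
    ∃ f : ℕ → (E →L[𝕜] 𝕜), (∀ (n : ℕ) (u : X), f n u = φ n u) ∧ (∃ M : ℝ, ∀ n, ‖f n‖ ≤ M) ∧
      Dense {e : E | ∃ u ∈ X, ∃ w : E, (∀ n, f n w = 0) ∧ e = u + w} := by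
  classical
  obtain ⟨C, hC⟩ := hx
  obtain ⟨D, hD⟩ := hφb
  have hxX : ∀ j, x j ∈ X := fun j => by
    rw [hX]; exact Submodule.le_topologicalClosure _ (Submodule.subset_span ⟨j, rfl⟩)
  choose f₀ hf₀ hf₀n using fun n => exists_extension_norm_eq X (φ n)
  obtain ⟨ι, hι, y, K, F, W, h1, h2, h3, h4, h5, h6, h7⟩ :=
    Y279.EX.main x C hC f₀ (fun i j => by
      have h := hf₀ i ⟨x j, hxX j⟩
      rw [hφ i j ⟨x j, hxX j⟩ rfl] at h
      exact h) D (fun n => by rw [hf₀n]; exact hD n)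
  refine ⟨F, fun n u => ?_, ⟨K, h6⟩, ?_⟩
  · -- two functionals agreeing on the sequence agree on the closed span
    have hle : X ≤ LinearMap.ker ((F n - f₀ n : E →L[𝕜] 𝕜) : E →ₗ[𝕜] 𝕜) := by
      rw [hX]
      refine Submodule.topologicalClosure_minimal _ ?_ ?_
      · rw [Submodule.span_le]
        rintro _ ⟨j, rfl⟩
        rw [SetLike.mem_coe, LinearMap.mem_ker]
        change F n (x j) - f₀ n (x j) = 0
        have h := hf₀ n ⟨x j, hxX j⟩
        rw [hφ n j ⟨x j, hxX j⟩ rfl] at h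
        have h' : f₀ n (x j) = if n = j then 1 else 0 := h
        rw [h1, h', sub_self]
      · exact ContinuousLinearMap.isClosed_ker _
    have h := hle u.2
    rw [LinearMap.mem_ker] at h
    have h' : F n (u : E) - f₀ n (u : E) = 0 := h
    rw [sub_eq_zero] at h'
    rw [h', hf₀]
  · -- density
    let N : Submodule 𝕜 E := ⨅ n, LinearMap.ker ((F n : E →L[𝕜] 𝕜) : E →ₗ[𝕜] 𝕜)
    have hN : ∀ w, w ∈ N ↔ ∀ n, F n w = 0 := by
      intro w
      simp only [N, Submodule.mem_iInf, LinearMap.mem_ker, ContinuousLinearMap.coe_coe]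
    have hset : {e : E | ∃ u ∈ X, ∃ w : E, (∀ n, F n w = 0) ∧ e = u + w} =
        ((X ⊔ N : Submodule 𝕜 E) : Set E) := by
      ext e
      rw [SetLike.mem_coe, Submodule.mem_sup]
      constructor
      · rintro ⟨u, hu, w, hw, rfl⟩
        exact ⟨u, hu, w, (hN w).2 hw, rfl⟩
      · rintro ⟨u, hu, w, hw, rfl⟩
        exact ⟨u, hu, w, (hN w).1 hw, rfl⟩
    rw [hset, Submodule.dense_iff_topologicalClosure_eq_top, eq_top_iff, ← h7]
    refine Submodule.topologicalClosure_mono ?_
    rw [Submodule.span_le]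
    rintro a (⟨j, rfl⟩ | ⟨i, rfl⟩)
    · exact Submodule.mem_sup_left (hxX j)
    · exact Submodule.mem_sup_right ((hN _).2 fun n => h2 n i)

end Pool.Agent.Results.MP_b3b95b_an.BoundedExtensions
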